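import Mathlib

namespace Pool.Agent.Results.MP_b2ceab_nt.Dependent

lemma common_base : ∀ N x y r s : ℕ, x + y ≤ N → 2 ≤ x → 2 ≤ y → 0 < r → 0 < s →
    x ^ r = y ^ s → ∃ t a b : ℕ, x = t ^ a ∧ y = t ^ b := by
  intro N
  induction N with
  | zero => intro x y r s h hx; omega
  | succ N ih =>
    have aux : ∀ x y r s : ℕ, x + y ≤ N + 1 → 2 ≤ x → 2 ≤ y → 0 < r → 0 < s →
        x ^ r = y ^ s → x < y → ∃ t a b : ℕ, x = t ^ a ∧ y = t ^ b := by
      intro x y r s hN hx hy hr hs h hxy
      have hrs : s < r := by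
        by_contra hc
        push Not at hc
        have h1 : x ^ r < y ^ r := Nat.pow_lt_pow_left hxy (by omega)
        have h2 : y ^ r ≤ y ^ s := Nat.pow_le_pow_right (by omega) hc
        omega
      have hdvd : x ∣ y := by
        have : x ^ s ∣ y ^ s := by
          rw [← h]; exact pow_dvd_pow x hrs.le
        exact (Nat.pow_dvd_pow_iff (by omega)).mp this
      obtain ⟨z, rfl⟩ := hdvd
      have hz2 : 2 ≤ z := by
        by_contra hc
        push Not at hc
        have : z ≤ 1 := by omega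
        have : x * z ≤ x * 1 := Nat.mul_le_mul_left x this
        omega
      have hzlt : z < x * z := by nlinarith
      have hpow : x ^ (r - s) = z ^ s := by
        rw [mul_pow] at h
        have h1 : x ^ s * x ^ (r - s) = x ^ s * z ^ s := by
          rw [← h, ← pow_add]; congr 1; omega
        exact Nat.eq_of_mul_eq_mul_left (by positivity) h1
      obtain ⟨t, a, b, h1, h2⟩ := ih x z (r - s) s (by omega) hx hz2 (by omega) hs hpow
      refine ⟨t, a, a + b, h1, ?_⟩
      rw [pow_add, ← h1, ← h2]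
    intro x y r s hN hx hy hr hs h
    rcases lt_trichotomy x y with hlt | heq | hgt
    · exact aux x y r s hN hx hy hr hs h hlt
    · exact ⟨x, 1, 1, by simp, by simp [heq]⟩
    · obtain ⟨t, a, b, h1, h2⟩ := aux y x s r (by omega) hy hx hs hr h.symm hgt
      exact ⟨t, b, a, h2, h1⟩

lemma key (u k : ℕ) (hu : 2 ≤ u) (hk : 2 ≤ k) (hu4 : u % 4 ≠ 3)
    (h : ∀ p, p.Prime → p ∣ u ^ k - 1 → p ∣ u - 1) : False := by
  set q := Nat.minFac k with hqdef
  have hq : q.Prime := Nat.minFac_prime (by omega)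
  have hqk : q ∣ k := Nat.minFac_dvd k
  set S := ∑ i ∈ Finset.range q, u ^ i with hS
  have hid : (u - 1) * S = u ^ q - 1 := by
    have h1 := mul_geom_sum (u : ℤ) q
    have h2 : 1 ≤ u ^ q := Nat.one_le_pow _ _ (by omega)
    zify [h2, (by omega : 1 ≤ u)]
    rw [hS]
    push_cast
    exact h1
  have hdvd : u ^ q - 1 ∣ u ^ k - 1 := by
    obtain ⟨c, hc⟩ := hqk
    rw [hc, pow_mul]
    have := Nat.sub_dvd_pow_sub_pow (u ^ q) 1 c
    simpa using this
  have hprimes : ∀ p, p.Prime → p ∣ S → p = q ∧ p ∣ u - 1 := by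
    intro p hp hpS
    have h1 : p ∣ u ^ k - 1 := (hpS.trans (Dvd.intro_left _ hid)).trans hdvd
    have h2 : p ∣ u - 1 := h p hp h1
    refine ⟨?_, h2⟩
    haveI := Fact.mk hp
    have h3 : (u : ZMod p) = 1 := by
      have : ((u - 1 : ℕ) : ZMod p) = 0 := (ZMod.natCast_eq_zero_iff _ _).mpr h2
      rw [Nat.cast_sub (by omega)] at this
      push_cast at this
      linear_combination this
    have h4 : (S : ZMod p) = (q : ZMod p) := by
      rw [hS]; push_cast; rw [h3]; simp
    have h5 : (S : ZMod p) = 0 := (ZMod.natCast_eq_zero_iff _ _).mpr hpS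
    rw [h5] at h4
    have h6 : p ∣ q := (ZMod.natCast_eq_zero_iff _ _).mp h4.symm
    exact (Nat.prime_dvd_prime_iff_eq hp hq).mp h6
  have hSbig : q < S := by
    have h1 : ∑ i ∈ Finset.range q, 1 < ∑ i ∈ Finset.range q, u ^ i := by
      apply Finset.sum_lt_sum
      · intro i _; exact Nat.one_le_pow _ _ (by omega)
      · exact ⟨1, Finset.mem_range.mpr hq.one_lt, by simpa using (by omega : 1 < u)⟩
    simpa using h1
  have hSne : S ≠ 0 := by omega
  have hqS : q ∣ S := by
    have h1 : S ≠ 1 := by have := hq.two_le; omega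
    have h2 := Nat.minFac_prime h1
    have h3 := (hprimes _ h2 (Nat.minFac_dvd S)).1
    rw [← h3]; exact Nat.minFac_dvd S
  have hqu : q ∣ u - 1 := (hprimes q hq hqS).2
  have hpow := Nat.eq_prime_pow_of_unique_prime_dvd hSne
    (fun {d} hd hdS => (hprimes d hd hdS).1)
  set L := S.primeFactorsList.length with hL
  rcases hq.eq_two_or_odd with h2 | hodd
  · -- q = 2
    have hS2 : S = u + 1 := by
      rw [hS, h2]; simp [Finset.sum_range_succ]; ring
    rw [h2] at hqu hpow
    have hu1 : u % 4 = 1 := by omega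
    have hL1 : L ≤ 1 := by
      by_contra hc
      push Not at hc
      have : 2 ^ 2 ∣ S := by rw [hpow]; exact pow_dvd_pow 2 hc
      omega
    have : S ≤ 2 ^ 1 := by rw [hpow]; exact Nat.pow_le_pow_right (by norm_num) hL1
    omega
  · haveI := Fact.mk hq
    have hqodd : Odd q := Nat.odd_iff.mpr hodd
    have hqu' : ¬ q ∣ u := by
      intro hc
      have h1 : q ∣ u - (u - 1) := Nat.dvd_sub hc hqu
      have h2 : u - (u - 1) = 1 := by omega
      rw [h2] at h1
      exact hq.one_lt.ne' (Nat.dvd_one.mp h1)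
    have hv := padicValNat.pow_sub_pow (p := q) (x := u) (y := 1) hqodd (by omega)
      (by simpa using hqu) hqu' (n := q) hq.ne_zero
    simp only [one_pow] at hv
    rw [← hid, padicValNat.mul (by omega) hSne, padicValNat.self hq.one_lt] at hv
    have hv1 : padicValNat q S = 1 := by omega
    rw [hpow, padicValNat.prime_pow] at hv1
    rw [hv1, pow_one] at hpow
    omega

lemma half (t a b e : ℕ) (ht : 2 ≤ t) (ha : 0 < a) (he : 0 < e) (hee : Even e)
    (hab : ¬ a ∣ b)
    (h : ∀ p, p.Prime → p ∣ (t ^ a) ^ e - 1 → p ∣ (t ^ b) ^ e - 1) : False := by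
  set g := Nat.gcd a b with hg
  have hgpos : 0 < g := Nat.gcd_pos_of_pos_left _ ha
  obtain ⟨c, hc⟩ := Nat.gcd_dvd_left a b
  rw [← hg] at hc
  have hc2 : 2 ≤ c := by
    by_contra hlt
    push Not at hlt
    have hc1 : c = 1 := by
      rcases Nat.eq_zero_or_pos c with h0 | h0
      · rw [h0] at hc; omega
      · omega
    rw [hc1, mul_one] at hc
    exact hab (hc ▸ Nat.gcd_dvd_right a b)
  obtain ⟨f, hf⟩ := hee
  refine key (t ^ (g * e)) c ?_ hc2 ?_ ?_
  · calc 2 ≤ t := ht
      _ = t ^ 1 := (pow_one t).symm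
      _ ≤ t ^ (g * e) := Nat.pow_le_pow_right (by omega) (Nat.mul_pos hgpos he)
  · have : t ^ (g * e) = (t ^ (g * f)) * (t ^ (g * f)) := by
      rw [← pow_add, hf]; congr 1; ring
    rw [this, Nat.mul_mod]
    have h4 : (t ^ (g * f)) % 4 = 0 ∨ (t ^ (g * f)) % 4 = 1 ∨ (t ^ (g * f)) % 4 = 2 ∨
        (t ^ (g * f)) % 4 = 3 := by omega
    rcases h4 with h | h | h | h <;> rw [h] <;> norm_num
  · intro p hp hpd
    have e1 : (t ^ (g * e)) ^ c = (t ^ a) ^ e := by
      rw [← pow_mul, ← pow_mul]; congr 1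
      calc g * e * c = (g * c) * e := by ring
        _ = a * e := by rw [← hc]
    rw [e1] at hpd
    have h2 := h p hp hpd
    rw [← pow_mul] at hpd h2
    have h3 := Nat.dvd_gcd hpd h2
    rw [Nat.pow_sub_one_gcd_pow_sub_one, Nat.gcd_mul_right] at h3
    exact h3

/-- Multiplicatively dependent `x, y ≥ 2` such that `x^e - 1` and `y^e - 1` have the same prime
divisors for one even exponent `e > 0` are equal. -/
theorem result (x y : ℕ) (hx : 2 ≤ x) (hy : 2 ≤ y) (r s : ℕ) (hr : 0 < r) (hs : 0 < s)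
    (hdep : x ^ r = y ^ s) (e : ℕ) (he : 0 < e) (hee : Even e)
    (h : ∀ p : ℕ, p.Prime → (p ∣ x ^ e - 1 ↔ p ∣ y ^ e - 1)) : x = y := by
  obtain ⟨t, a, b, h1, h2⟩ := common_base (x + y) x y r s le_rfl hx hy hr hs hdep
  have ha : 0 < a := by
    rcases Nat.eq_zero_or_pos a with h0 | h0
    · rw [h0, pow_zero] at h1; omega
    · exact h0
  have hb : 0 < b := by
    rcases Nat.eq_zero_or_pos b with h0 | h0
    · rw [h0, pow_zero] at h2; omega
    · exact h0
  have ht : 2 ≤ t := by
    rcases Nat.lt_or_ge t 2 with h0 | h0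
    · interval_cases t
      · rw [zero_pow (by omega)] at h1; omega
      · rw [one_pow] at h1; omega
    · exact h0
  subst h1 h2
  by_cases hab : a ∣ b
  · by_cases hba : b ∣ a
    · rw [Nat.dvd_antisymm hab hba]
    · exact (half t b a e ht hb he hee hba (fun p hp => (h p hp).mpr)).elim
  · exact (half t a b e ht ha he hee hab (fun p hp => (h p hp).mp)).elim

end Pool.Agent.Results.MP_b2ceab_nt.Dependent
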